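import Pool.Agent.Lib.MP_7f19fc_nt.Main

set_option autoImplicit false

namespace Pool.Agent.Retired.MP_7f19fc_nt.CompositeArguments

open Pool.Agent.Lib.MP_7f19fc_nt

/-- At least `c X / log X` integers `x ≤ X` are of the form `k n` with `2 ≤ k < n` and
`k n + π (k n)` prime. -/
theorem result : ∃ c : ℝ, 0 < c ∧ ∃ X₀ : ℕ, ∀ X : ℕ, X₀ ≤ X →
    c * X / Real.log X ≤ (Set.ncard {x : ℕ | x ≤ X ∧ ∃ k n : ℕ, 2 ≤ k ∧ k < n ∧ x = k * n ∧
      Nat.Prime (k * n + Nat.primeCounting (k * n))} : ℝ) := by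
  obtain ⟨c, c0, h⟩ := cmp_ge
  obtain ⟨X₀, h⟩ := Filter.eventually_atTop.1 h
  refine ⟨c, c0, X₀, fun X hX => ?_⟩
  have h1 := (Nat.cast_le (α := ℝ)).2 (cmp_le X)
  have h2 := Set.ncard_le_ncard (s := ↑((Finset.range (X + 1)).filter fun x =>
      ∃ k ∈ Finset.range x, ∃ n ∈ Finset.range x, 2 ≤ k ∧ k < n ∧ x = k * n ∧
        (k * n + Nat.primeCounting (k * n)).Prime))
    (t := {x : ℕ | x ≤ X ∧ ∃ k n : ℕ, 2 ≤ k ∧ k < n ∧ x = k * n ∧
      Nat.Prime (k * n + Nat.primeCounting (k * n))})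
    (fun x hx => by
      obtain ⟨a, k, -, n, -, b⟩ := Finset.mem_filter.1 hx
      exact ⟨Nat.lt_succ_iff.1 (Finset.mem_range.1 a), k, n, b⟩)
    ((Set.finite_le_nat X).subset fun _ hx => hx.1)
  rw [Set.ncard_coe_finset] at h2
  have h3 := (Nat.cast_le (α := ℝ)).2 h2
  have h4 := h X hX
  rw [Nat.cast_add, Nat.cast_add, Nat.cast_one] at h1
  linarith

end Pool.Agent.Retired.MP_7f19fc_nt.CompositeArguments
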